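import Pool.Agent.Lib.MP_ef13ad_lc.R.Defs

open Cardinal Ordinal Set Order

namespace Pool.Agent.MP_ef13ad_lc

/-- A large set has a large subset with small initial segments. -/
theorem cases_thin {E : Set Ordinal.{0}} {u : Cardinal.{0}} (h : ¬ Sz E u) :
    ∃ Z ⊆ E, ¬ Sz Z u ∧ ∀ z ∈ Z, Sz (Z ∩ Iio z) u := by
  refine ⟨{z | z ∈ E ∧ Sz (E ∩ Iio z) u}, fun z hz => hz.1, fun hZ => ?_,
    fun z hz => hz.2.mono fun y hy => ⟨hy.1.1, hy.2⟩⟩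
  refine h (hZ.mono fun z => ?_)
  induction z using WellFoundedLT.induction with
  | ind z ih => exact fun hz => ⟨hz, hZ.mono fun y hy => ih y hy.2 hy.1⟩

theorem NoThin.exists_cof {k : Cardinal.{0}} {X D : Set Ordinal.{0}}
    {F : Ordinal.{0} → Ordinal.{0} → Ordinal.{0}} (h : NoThin k X D F) (hk : k.IsSingular)
    (hX : ¬ Sz X k) (hD : Sz D k) (hF : ∀ z ∈ X, ∀ i ∈ D, F z i ∈ D) :
    ∃ c : Ordinal.{0} → Ordinal.{0}, (∀ j < k.ord.cof.ord, c j ∈ D) ∧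
      ∀ s ∈ D, AE k.ord.cof.ord (fun j => s ≤ c j) := by
  have hk0 : ℵ₀ ≤ k := hk.aleph0_le
  have hk1 : ℵ₀ < k := lt_of_le_of_ne hk0 fun e => not_isSingular_aleph0 (e ▸ hk)
  have hlim : IsSuccLimit k.ord := isSuccLimit_ord hk0
  have hreg : k.ord.cof.IsRegular := isRegular_cof hlim
  have hlim' : IsSuccLimit k.ord.cof.ord := isSuccLimit_ord hreg.aleph0_le
  obtain ⟨w, hw, hw'⟩ := hD.exists_injOn
  obtain ⟨cs, hmono, hcs1, hcs2⟩ := exists_cofSeq k.ord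
  let B : Ordinal.{0} → Set Ordinal.{0} := fun j => {x | x ∈ D ∧ w x ≤ cs j}
  let E : Ordinal.{0} → Set Ordinal.{0} :=
    fun j => {z | z ∈ X ∧ ∀ s ∈ D, ∃ i ∈ B j, s ≤ i ∧ F z i ∈ B j}
  have hB : ∀ j, Sz (B j) (max ℵ₀ (cs j + 1).card) := fun j =>
    Sz_of_injOn (f := w) (Sz_Iio (o := cs j + 1) (le_max_right _ _)) (hw.mono fun x hx => hx.1)
      fun a ha => lt_of_le_of_lt ha.2 (lt_add_one _)
  have hu : ∀ j < k.ord.cof.ord, max ℵ₀ (cs j + 1).card < k := fun j hj =>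
    max_lt hk1 (lt_ord.1 (hlim.add_one_lt (hcs1 j hj)))
  have hE : ∀ j ∈ Iio k.ord.cof.ord, Sz (E j) k := by
    intro j hj
    refine Sz.trans_le ?_ (hu j hj).le
    by_contra hn
    obtain ⟨Z, hZ1, hZ2, hZ3⟩ := cases_thin hn
    exact h _ (le_max_left _ _) (hu j hj) Z (fun z hz => (hZ1 hz).1) hZ2 hZ3 (B j)
      (fun x hx => hx.1) (B j) (hB j) (hB j) fun z hz => (hZ1 hz).2
  obtain ⟨z0, hz0, hz1⟩ : ∃ z0 ∈ X, ∀ j < k.ord.cof.ord, z0 ∉ E j := by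
    by_contra hn
    push Not at hn
    refine hX ((((Sz_Iio_ord _).trans_le hk.cof_ord_lt.le).biUnion hE hk0).mono fun z hz => ?_)
    obtain ⟨j, hj, hj'⟩ := hn z hz
    exact mem_biUnion hj hj'
  have ht : ∀ j < k.ord.cof.ord, ∃ s ∈ D, ∀ i ∈ B j, F z0 i ∈ B j → i < s := by
    intro j hj
    by_contra hn
    push Not at hn
    refine hz1 j hj ⟨hz0, fun s hs => ?_⟩
    obtain ⟨i, h1, h2, h3⟩ := hn s hs
    exact ⟨i, h1, h3, h2⟩
  choose! t ht1 ht2 using ht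
  have hmx : ∀ s ∈ D, ∃ j < k.ord.cof.ord, max (w s) (w (F z0 s)) ≤ cs j := fun s hs =>
    hcs2 _ (max_lt (hw' s hs) (hw' _ (hF z0 hz0 s hs)))
  have hc : ∀ j < k.ord.cof.ord, ∃ s ∈ D, ∀ j' ≤ j, t j' ≤ s := by
    intro j hj
    by_contra hn
    push Not at hn
    have hC : Sz (t '' Iio (j + 1)) (j + 1).card := (Sz_Iio le_rfl).image t
    have hCD : ∀ a ∈ t '' Iio (j + 1), a ∈ D := by
      rintro _ ⟨j', hj', rfl⟩
      exact ht1 j' (lt_trans hj' (hlim'.add_one_lt hj))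
    obtain ⟨b, hb, hb'⟩ := hC.exists_bound_of_forall (o := k.ord.cof.ord)
      (R := fun a y => max (w a) (w (F z0 a)) ≤ cs y)
      (by rw [hreg.cof_ord]; exact lt_ord.1 (hlim'.add_one_lt hj)) fun a ha => hmx a (hCD a ha)
    refine hz1 b hb ⟨hz0, fun s hs => ?_⟩
    obtain ⟨j', hj', hs'⟩ := hn s hs
    have hm : t j' ∈ t '' Iio (j + 1) := ⟨j', lt_of_le_of_lt hj' (lt_add_one j), rfl⟩
    obtain ⟨y, hy, hy'⟩ := hb' _ hm
    have hyb : cs y ≤ cs b := (hmono (hy.trans hb) hb hy).le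
    exact ⟨t j', ⟨hCD _ hm, (le_max_left _ _).trans (hy'.trans hyb)⟩, hs'.le,
      hF z0 hz0 _ (hCD _ hm), (le_max_right _ _).trans (hy'.trans hyb)⟩
  choose! c hc1 hc2 using hc
  refine ⟨c, hc1, fun s hs => ?_⟩
  obtain ⟨j, hj, hj'⟩ := hmx s hs
  have h1 : s < t j := ht2 j hj s ⟨hs, (le_max_left _ _).trans hj'⟩
    ⟨hF z0 hz0 s hs, (le_max_right _ _).trans hj'⟩
  exact ⟨j, hj, fun i h2 h3 => h1.le.trans (hc2 i h3 j h2)⟩

end Pool.Agent.MP_ef13ad_lc
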