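import Pool.Agent.Lib.MP_ef13ad_lc.R.Defs

open Cardinal Ordinal Set Order

namespace Pool.Agent.MP_ef13ad_lc

theorem exists_closed_family {β : Type 1} {c : Cardinal.{0}} (hc : ℵ₀ ≤ c) (P : β → Prop)
    (F : Ordinal.{0} → β) (op : ℕ → β → β → β) (hF : ∀ z < c.ord, P (F z))
    (hop : ∀ m x y, P x → P y → P (op m x y)) :
    ∃ H : Ordinal.{0} → β, (∀ z < c.ord, P (H z)) ∧ (∀ z < c.ord, ∃ z' < c.ord, H z' = F z) ∧
      ∀ m, ∀ x < c.ord, ∀ y < c.ord, ∃ z < c.ord, H z = op m (H x) (H y) := by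
  have hc' : ℵ₀ ≤ Cardinal.lift.{1} c := by simpa using hc
  let S : ℕ → Set β := fun r => Nat.rec (F '' Iio c.ord)
    (fun _ A => A ∪ range fun p : ULift.{1} ℕ × A × A => op p.1.down p.2.1 p.2.2) r
  have mono : Monotone S := monotone_nat_of_le_succ fun r => subset_union_left
  have hP : ∀ r, ∀ x ∈ S r, P x := by
    intro r
    induction r with
    | zero => rintro _ ⟨z, hz, rfl⟩; exact hF z hz
    | succ r ih =>
      rintro x (hx | ⟨p, rfl⟩)
      · exact ih x hx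
      · exact hop _ _ _ (ih _ p.2.1.2) (ih _ p.2.2.2)
  have hS : ∀ r, Cardinal.mk ↥(S r) ≤ Cardinal.lift.{1} c := by
    intro r
    induction r with
    | zero => exact mk_image_le.trans (by rw [Cardinal.mk_Iio_ordinal, card_ord])
    | succ r ih =>
      refine (mk_union_le _ _).trans (add_le_of_le hc' ih (mk_range_le.trans ?_))
      rw [mk_prod, mk_prod]
      simp only [Cardinal.lift_id, mk_uLift, mk_nat, lift_aleph0]
      calc _ ≤ Cardinal.lift.{1} c * (Cardinal.lift.{1} c * Cardinal.lift.{1} c) :=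
            mul_le_mul' hc' (mul_le_mul' ih ih)
        _ = _ := by rw [mul_eq_self hc', mul_eq_self hc']
  have hU : Cardinal.mk (⋃ r : ULift.{1} ℕ, S r.down) ≤ Cardinal.mk (Iio c.ord) := by
    rw [Cardinal.mk_Iio_ordinal, card_ord]
    refine (mk_iUnion_le _).trans ?_
    simp only [mk_uLift, mk_nat, lift_aleph0]
    exact (mul_le_mul' hc' (ciSup_le' fun r : ULift.{1} ℕ => hS r.down)).trans
      (mul_eq_self hc').le
  obtain ⟨e⟩ := (Cardinal.le_def _ _).1 hU
  have c0 : (0 : Ordinal.{0}) < c.ord := by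
    simpa using ord_lt_ord.2 (aleph0_pos.trans_le hc)
  have : Nonempty (⋃ r : ULift.{1} ℕ, S r.down) := ⟨⟨F 0, mem_iUnion.2 ⟨⟨0⟩, 0, c0, rfl⟩⟩⟩
  have inj : Function.Injective fun u => (e u).1 := Subtype.val_injective.comp e.injective
  have key : ∀ r, ∀ x ∈ S r, ∃ z < c.ord, (Function.invFun (fun u => (e u).1) z).1 = x :=
    fun r x hx => ⟨_, (e ⟨x, mem_iUnion.2 ⟨⟨r⟩, hx⟩⟩).2,
      congrArg Subtype.val (Function.leftInverse_invFun inj _)⟩
  refine ⟨fun z => (Function.invFun (fun u => (e u).1) z).1, fun z _ => ?_,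
    fun z hz => key 0 _ ⟨z, hz, rfl⟩, fun m x _ y _ => ?_⟩
  · obtain ⟨r, hr⟩ := mem_iUnion.1 (Function.invFun (fun u => (e u).1) z).2
    exact hP _ _ hr
  · obtain ⟨r, hr⟩ := mem_iUnion.1 (Function.invFun (fun u => (e u).1) x).2
    obtain ⟨s, hs⟩ := mem_iUnion.1 (Function.invFun (fun u => (e u).1) y).2
    exact key (max r.down s.down + 1) _ (Or.inr ⟨⟨⟨m⟩, ⟨_, mono (le_max_left _ _) hr⟩,
      ⟨_, mono (le_max_right _ _) hs⟩⟩, rfl⟩)

theorem exists_trunc_code {k v a : Cardinal.{0}} (hl : k.IsStrongLimit) (hv : v < k) (ha : a < k)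
    (H : Ordinal.{0} → Ordinal.{0} → Ordinal.{0}) :
    ∃ cd : Ordinal.{0} → Ordinal.{0}, (∀ z, cd z < k.ord) ∧
      ∀ z z', cd z = cd z' → ∀ i < v.ord, H z i < a.ord → H z' i = H z i := by
  have h1 : a + 1 < k := add_lt_of_lt hl.aleph0_le ha (one_lt_aleph0.trans_le hl.aleph0_le)
  have h2 : (a + 1) ^ v ≤ k := by
    refine (power_le_power_right (cantor _).le).trans ?_
    rw [← power_mul]
    exact (hl.isStrongPrelimit (mul_lt_of_lt hl.aleph0_le h1 hv)).le
  have h3 : Cardinal.mk (Iio v.ord → Iio (a.ord + 1)) ≤ Cardinal.mk (Iio k.ord) := by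
    rw [← power_def, Cardinal.mk_Iio_ordinal, Cardinal.mk_Iio_ordinal, Cardinal.mk_Iio_ordinal,
      card_add, card_one, card_ord, card_ord, card_ord, ← Cardinal.lift_power]
    exact Cardinal.lift_le.2 h2
  obtain ⟨e⟩ := (Cardinal.le_def _ _).1 h3
  refine ⟨fun z => (e fun i => ⟨min (H z i) a.ord,
    mem_Iio.2 ((min_le_right _ _).trans_lt (lt_add_one _))⟩).1,
    fun z => (e _).2, fun z z' h i hi hlt => ?_⟩
  have h4 : min (H z i) a.ord = min (H z' i) a.ord :=
    congrArg Subtype.val (congrFun (e.injective (Subtype.ext h)) ⟨i, hi⟩)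
  rw [min_eq_left hlt.le] at h4
  rcases le_total (H z' i) a.ord with h5 | h5
  · rw [h4, min_eq_left h5]
  · rw [min_eq_right h5] at h4
    exact absurd h4 hlt.ne

end Pool.Agent.MP_ef13ad_lc
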