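import Pool.Agent.Lib.MP_ef13ad_lc.Base

open Cardinal Ordinal Set Order

namespace Pool.Agent.MP_ef13ad_lc

/-- The functions `G m` send pairs below `L` below `L`. -/
def Bd (L : Ordinal.{0}) (G : ℕ → Ordinal.{0} → Ordinal.{0} → Ordinal.{0}) : Prop :=
  ∀ m, ∀ x < L, ∀ y < L, G m x y < L

/-- `Y` is closed under `G`, has more than `u` elements and at most `u` elements below `k`. -/
def Wit (k u : Cardinal.{0}) (G : ℕ → Ordinal.{0} → Ordinal.{0} → Ordinal.{0})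
    (Y : Set Ordinal.{0}) : Prop :=
  Y ⊆ Iio (succ k).ord ∧ (∀ m, ∀ x ∈ Y, ∀ y ∈ Y, G m x y ∈ Y) ∧ ¬ Sz Y u ∧
    Sz (Y ∩ Iio k.ord) u

/-- The form of Chang's Conjecture for countably many binary functions. -/
def WC (k u : Cardinal.{0}) : Prop := ∀ G, Bd (succ k).ord G → ∃ Y, Wit k u G Y

/-- No large subset of `X` has its `F`-values cofinally often in a small set. -/
def NoThin (k : Cardinal.{0}) (X D : Set Ordinal.{0})
    (F : Ordinal.{0} → Ordinal.{0} → Ordinal.{0}) : Prop :=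
  ∀ u, ℵ₀ ≤ u → u < k → ∀ Z ⊆ X, ¬ Sz Z u → (∀ z ∈ Z, Sz (Z ∩ Iio z) u) →
    ∀ C ⊆ D, ∀ V, Sz C u → Sz V u → (∀ z ∈ Z, ∀ s ∈ D, ∃ i ∈ C, s ≤ i ∧ F z i ∈ V) → False

end Pool.Agent.MP_ef13ad_lc
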