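import Pool.Agent.Lib.MP_ef13ad_lc.R.Defs

open Cardinal Ordinal Set Order

namespace Pool.Agent.MP_ef13ad_lc

theorem NoThin.push {k : Cardinal.{0}} {X D : Set Ordinal.{0}} {n : Ordinal.{0}}
    {F : Ordinal.{0} → Ordinal.{0} → Ordinal.{0}} {c : Ordinal.{0} → Ordinal.{0}}
    (h : NoThin k X D F) (hk : ℵ₀ ≤ k) (hn : n ≤ k.ord) (hX : ¬ Sz X k)
    (hX' : ∀ x ∈ X, Sz (X ∩ Iio x) k) (hD : Sz D k) (hF : ∀ z ∈ X, ∀ i ∈ D, F z i ∈ D)
    (hc : ∀ j < n, c j ∈ D) (hc' : ∀ s ∈ D, AE n (fun j => s ≤ c j)) :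
    ∃ G, Bd (succ k).ord G ∧ ∀ u, ℵ₀ ≤ u → u < k → ∀ Y, Wit k u G Y →
      ∃ b < n, ∀ y ∈ Y, y < n → y < b := by
  classical
  have _hk := hk
  obtain ⟨p, hp, hpE⟩ := exists_injOn_of_not_Sz hX
  obtain ⟨w, hw, hwk⟩ := hD.exists_injOn
  have hkL : k.ord < (succ k).ord := Cardinal.ord_lt_ord.2 (lt_succ k)
  have hq : ∀ x : Ordinal.{0}, ∃ q : Ordinal.{0} → Ordinal.{0}, x < (succ k).ord →
      InjOn q {y | y < (succ k).ord ∧ p y < p x} ∧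
        ∀ y ∈ {y | y < (succ k).ord ∧ p y < p x}, q y < k.ord := by
    intro x
    by_cases hx : x < (succ k).ord
    · have h1 : Sz {y | y < (succ k).ord ∧ p y < p x} k :=
        Sz_of_injOn (f := p) (hX' _ (hpE x hx)) (hp.mono fun y hy => hy.1)
          (fun y hy => ⟨hpE y hy.1, hy.2⟩)
      obtain ⟨q, h2, h3⟩ := h1.exists_injOn
      exact ⟨q, fun _ => ⟨h2, h3⟩⟩
    · exact ⟨id, fun h => absurd h hx⟩
  choose q hq using hq
  let G : ℕ → Ordinal.{0} → Ordinal.{0} → Ordinal.{0} := fun m x y =>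
    if m = 0 then (if p y < p x then q x y else 0) else (if y < n then w (F (p x) (c y)) else 0)
  have hG : Bd (succ k).ord G := by
    intro m x hx y hy
    simp only [G]
    split_ifs with h1 h2 h3
    · exact ((hq x hx).2 y ⟨hy, h2⟩).trans hkL
    · exact lt_of_le_of_lt zero_le hkL
    · exact (hwk _ (hF _ (hpE x hx) _ (hc y h3))).trans hkL
    · exact lt_of_le_of_lt zero_le hkL
  refine ⟨G, hG, fun u hu huk Y ⟨hY, hcl, h1, h3⟩ => ?_⟩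
  by_contra hcon
  push Not at hcon
  refine h u hu huk (p '' Y) ?_ ?_ ?_ (c '' (Y ∩ Iio n)) ?_
    {z | z ∈ D ∧ w z ∈ Y ∩ Iio k.ord} ?_ ?_ ?_
  · rintro _ ⟨y, hy, rfl⟩
    exact hpE y (hY hy)
  · exact fun hs => h1 (Sz_of_injOn (f := p) hs (hp.mono hY) fun a ha => ⟨a, ha, rfl⟩)
  · rintro _ ⟨x, hx, rfl⟩
    have h4 : Sz {y | y ∈ Y ∧ p y < p x} u := by
      have h7 : {y | y ∈ Y ∧ p y < p x} ⊆ {y | y < (succ k).ord ∧ p y < p x} :=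
        fun y hy => ⟨hY hy.1, hy.2⟩
      refine Sz_of_injOn (f := q x) h3 ((hq x (hY hx)).1.mono h7) ?_
      intro y hy
      refine ⟨?_, (hq x (hY hx)).2 y ⟨hY hy.1, hy.2⟩⟩
      have h5 := hcl 0 x hx y hy.1
      simpa only [G, if_true, if_pos hy.2] using h5
    refine (h4.image p).mono ?_
    rintro _ ⟨⟨y, hy, rfl⟩, h5⟩
    exact ⟨y, ⟨hy, h5⟩, rfl⟩
  · rintro _ ⟨y, hy, rfl⟩
    exact hc y hy.2
  · exact (h3.mono fun y hy => ⟨hy.1, lt_of_lt_of_le hy.2 hn⟩).image c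
  · exact Sz_of_injOn (f := w) h3 (hw.mono fun z hz => hz.1) fun z hz => hz.2
  · rintro _ ⟨x, hx, rfl⟩ s hs
    obtain ⟨j, hj, hj'⟩ := hc' s hs
    obtain ⟨y, hy, hyn, hjy⟩ := hcon j hj
    have h5 := hF _ (hpE x (hY hx)) _ (hc y hyn)
    refine ⟨c y, ⟨y, ⟨hy, hyn⟩, rfl⟩, hj' y hjy hyn, h5, ?_, hwk _ h5⟩
    have h6 := hcl 1 x hx y hy
    simpa only [G, one_ne_zero, if_false, if_pos hyn] using h6

end Pool.Agent.MP_ef13ad_lc
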