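import Pool.Agent.Lib.MP_ef13ad_lc.R.Seqs
import Pool.Agent.Lib.MP_ef13ad_lc.R.Ladder
import Pool.Agent.Lib.MP_ef13ad_lc.R.Funs
import Pool.Agent.Lib.MP_ef13ad_lc.Clash

open Cardinal Ordinal Set Order

namespace Pool.Agent.MP_ef13ad_lc

theorem reflect {k u : Cardinal.{0}} (hs : k.IsSingular) (hl : k.IsStrongLimit) (hu0 : ℵ₀ ≤ u)
    (hu : u < k) (ih : ∀ t < k, u < t → t.IsSingular → t.IsStrongLimit → ¬ WC t u) :
    ∃ G, Bd (succ k).ord G ∧ ∀ Y, Wit k u G Y →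
      (∃ b < k.ord.cof.ord, ∀ y ∈ Y, y < k.ord.cof.ord → y < b) → False := by
  obtain ⟨m, hm, hcof, hmono, hlim⟩ := exists_ladder hs hl hu
  have hk0 : ℵ₀ ≤ k := hs.aleph0_le
  have hv0 : ℵ₀ ≤ k.ord.cof := (isRegular_cof (isSuccLimit_ord hk0)).aleph0_le
  have hvk : k.ord.cof < k := hs.cof_ord_lt
  generalize k.ord.cof = v at hm hcof hmono hlim hv0 hvk ⊢
  have hn : IsSuccLimit v.ord := isSuccLimit_ord hv0
  have hnk : v.ord < k.ord := ord_lt_ord.2 hvk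
  have hkL : k.ord < (succ k).ord := ord_lt_ord.2 (lt_succ k)
  have hLl : IsSuccLimit (succ k).ord := isSuccLimit_ord (hk0.trans (le_succ k))
  have hL : 0 < (succ k).ord := hLl.pos
  obtain ⟨F, hb, hF⟩ := exists_seq_prod (l := k) m (fun i hi => (hm i hi).1) hcof
  have hA : ∀ i, ∃ A : ℕ → Ordinal.{0} → Ordinal.{0} → Ordinal.{0}, Bd (succ (m i)).ord A ∧
      (¬ WC (m i) u → ∀ Y, ¬ Wit (m i) u A Y) := by
    intro i
    by_cases h : WC (m i) u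
    · exact ⟨fun _ x _ => x, fun _ x hx _ _ => hx, fun h' => absurd h h'⟩
    · have h' := h
      unfold WC at h'
      push Not at h'
      obtain ⟨A, h1, h2⟩ := h'
      exact ⟨A, h1, fun _ => h2⟩
  choose A hA1 hA2 using hA
  obtain ⟨H, hP, hHF, hHop⟩ := exists_closed_family (β := Ordinal.{0} → Ordinal.{0})
    (c := succ k) (hk0.trans (le_succ k)) (fun h => ∀ i < v.ord, h i < (succ (m i)).ord) F
    (fun r x y i => A i r (x i) (y i)) hb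
    (fun r x y hx hy i hi => hA1 i r _ (hx i hi) _ (hy i hi))
  have hcd : ∀ j, ∃ cd : Ordinal.{0} → Ordinal.{0}, (∀ z, cd z < k.ord) ∧ (j < v.ord →
      ∀ z z', cd z = cd z' → ∀ i < v.ord, H z i < (m j).ord → H z' i = H z i) := by
    intro j
    by_cases hj : j < v.ord
    · obtain ⟨cd, h1, h2⟩ := exists_trunc_code hl hvk (hm j hj).2 H
      exact ⟨cd, h1, fun _ => h2⟩
    · exact ⟨fun _ => 0, fun _ => hn.pos.trans hnk, fun h => absurd h hj⟩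
  choose cd hcd1 hcd2 using hcd
  obtain ⟨g0, b0, s0⟩ := clash_skolem hL fun x _ z => z = x + 1
  obtain ⟨g1, b1, s1⟩ := clash_skolem hL fun x _ z => H z = F x
  obtain ⟨g2, b2, s2⟩ := clash_skolem hL fun x y z =>
    z < v.ord ∧ ∀ i, z ≤ i → i < v.ord → F x i < F y i
  have hop : ∀ r : ℕ, ∃ g : Ordinal.{0} → Ordinal.{0} → Ordinal.{0},
      (∀ x y, g x y < (succ k).ord) ∧ ∀ x < (succ k).ord, ∀ y < (succ k).ord,
        H (g x y) = fun i => A i r (H x i) (H y i) := by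
    intro r
    obtain ⟨g, h1, h2⟩ := clash_skolem hL fun x y z => H z = fun i => A i r (H x i) (H y i)
    exact ⟨g, h1, fun x hx y hy => h2 x y (hHop r x hx y hy)⟩
  choose g b4 s4 using hop
  refine ⟨fun r => match r with
      | 0 => g0 | 1 => g1 | 2 => g2 | 3 => fun x j => cd j x | r + 4 => g r,
    fun r x _ y _ => match r with
      | 0 => b0 x y | 1 => b1 x y | 2 => b2 x y | 3 => (hcd1 y x).trans hkL
      | r + 4 => b4 r x y, ?_⟩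
  rintro Y ⟨hYL, hcl, hY, hYk⟩ ⟨b, hbn, hbd⟩
  have c0 : ∀ x ∈ Y, ∀ y ∈ Y, g0 x y ∈ Y := hcl 0
  have c1 : ∀ x ∈ Y, ∀ y ∈ Y, g1 x y ∈ Y := hcl 1
  have c2 : ∀ x ∈ Y, ∀ y ∈ Y, g2 x y ∈ Y := hcl 2
  have c3 : ∀ x ∈ Y, ∀ j ∈ Y, cd j x ∈ Y := hcl 3
  have c4 : ∀ r, ∀ x ∈ Y, ∀ y ∈ Y, g r x y ∈ Y := fun r => hcl (r + 4)
  have hbdd : BddAbove (Y ∩ Iio v.ord) := ⟨b, fun y hy => (hbd y hy.1 hy.2).le⟩
  obtain ⟨d, hd⟩ : ∃ d, d = sSup (Y ∩ Iio v.ord) := ⟨_, rfl⟩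
  have hdn : d < v.ord := by
    rw [hd]
    exact (csSup_le' fun y hy => (hbd y hy.1 hy.2).le).trans_lt hbn
  have hlt : ∀ y ∈ Y, y < v.ord → y < d := by
    intro y hy hyn
    have h1 : y + 1 ∈ Y := s0 y y ⟨_, hLl.add_one_lt (hYL hy), rfl⟩ ▸ c0 y hy y hy
    rw [hd]
    exact (lt_add_one y).trans_le (le_csSup hbdd ⟨h1, hn.add_one_lt hyn⟩)
  have hup : ∀ j < d, ∃ y ∈ Y, y < v.ord ∧ j < y := by
    intro j hj
    by_contra hc
    push Not at hc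
    rw [hd] at hj
    exact hj.not_ge (csSup_le' fun y hy => hc y hy.1 hy.2)
  have hth : ∀ x ∈ Y, ∀ y ∈ Y, x < y → g2 x y < d ∧ F x d < F y d := by
    intro x hx y hy hxy
    obtain ⟨h1, h2⟩ := s2 x y (by
      obtain ⟨j, h1, h2⟩ := hF x y hxy (hYL hy)
      exact ⟨j, (h1.trans hnk).trans hkL, h1, h2⟩)
    have h3 := hlt _ (c2 x hx y hy) h1
    exact ⟨h3, h2 d h3.le hdn⟩
  have hd0 : 0 < d := by
    have hns : ¬ Y.Subsingleton := fun h => hY (Sz_of_subsingleton h hu0)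
    obtain ⟨x, hx, y, hy, hxy⟩ := not_subsingleton_iff.1 hns
    rcases hxy.lt_or_gt with h | h
    · exact (zero_le (a := g2 x y)).trans_lt (hth x hx y hy h).1
    · exact (zero_le (a := g2 y x)).trans_lt (hth y hy x hx h).1
  have hdl : IsSuccLimit d := by
    refine isSuccLimit_iff.2 ⟨hd0.ne', isSuccPrelimit_of_succ_lt fun j hj => ?_⟩
    obtain ⟨y, hy, hyn, hjy⟩ := hup j hj
    exact (succ_le_of_lt hjy).trans_lt (hlt y hy hyn)
  obtain ⟨l1, l2, l3, l4⟩ := hlim d hdn hdl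
  refine hA2 d (ih _ (hm d hdn).2 l3 l2 l1) ((fun z => H z d) '' Y) ⟨?_, ?_, ?_, ?_⟩
  · rintro _ ⟨z, hz, rfl⟩
    exact hP z (hYL hz) d hdn
  · rintro r _ ⟨x, hx, rfl⟩ _ ⟨y, hy, rfl⟩
    exact ⟨g r x y, c4 r x hx y hy, congrFun (s4 r x (hYL hx) y (hYL hy)) d⟩
  · refine fun hs => hY (Sz_of_injOn (f := fun z => F z d) hs ?_ fun x hx => ?_)
    · exact StrictMonoOn.injOn fun x hx y hy hxy => (hth x hx y hy hxy).2
    · exact ⟨g1 x x, c1 x hx x hx, congrFun (s1 x x (hHF x (hYL hx))) d⟩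
  · have hYn : Sz (Y ∩ Iio v.ord) u :=
      hYk.mono (inter_subset_inter_right Y (Iio_subset_Iio hnk.le))
    have hsub : ∀ j ∈ Y ∩ Iio v.ord, ∀ x ∈ Y ∩ Iio k.ord,
        Sz {y | ∃ z, cd j z = x ∧ H z d < (m j).ord ∧ y = H z d} u := by
      intro j hj x _
      refine Sz_of_subsingleton ?_ hu0
      rintro _ ⟨z, h1, h2, rfl⟩ _ ⟨z', h1', -, rfl⟩
      exact (hcd2 j hj.2 z z' (h1.trans h1'.symm) d hdn h2).symm
    refine (hYn.biUnion (fun j hj => hYk.biUnion (hsub j hj) hu0) hu0).mono ?_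
    rintro _ ⟨⟨z, hz, rfl⟩, h⟩
    obtain ⟨j, hj, hj'⟩ := l4 _ h
    obtain ⟨y, hy, hyn, hjy⟩ := hup j hj
    exact mem_biUnion (x := y) ⟨hy, hyn⟩ (mem_biUnion (x := cd y z) ⟨c3 z hz y hy, hcd1 y z⟩
      ⟨z, rfl, hj'.trans_le (ord_le_ord.2 (hmono j y hjy.le hyn)), rfl⟩)

end Pool.Agent.MP_ef13ad_lc
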