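import Pool.Agent.Lib.MP_ef13ad_lc.Code
import Pool.Agent.Lib.MP_ef13ad_lc.R.NoThin
import Pool.Agent.Lib.MP_ef13ad_lc.R.Cases
import Pool.Agent.Lib.MP_ef13ad_lc.R.Push
import Pool.Agent.Lib.MP_ef13ad_lc.R.Reflect

open Cardinal Ordinal Set Order

namespace Pool.Agent.MP_ef13ad_lc

theorem main2_wc {l k : Cardinal.{0}} (h : CC l k) (hl : ℵ₀ ≤ l) : WC l k := by
  intro G hG
  obtain ⟨X, h1, -, h2, h3, -, h4, -⟩ := h.closed hl G hG
  exact ⟨X, h1, h2, h3, h4⟩

theorem main2_not_WC (k : Cardinal.{0}) (hk : ℵ₀ ≤ k) (l : Cardinal.{0}) :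
    k < l → l.IsSingular → l.IsStrongLimit →
    (∀ t : Cardinal.{0}, k < t → t ≤ l → t.IsSingular → t.IsStrongLimit → t.ord.cof ≤ k →
      ∃ r : Cardinal.{0}, r.IsRegular ∧ t < r ∧ CC r t) →
    ¬ WC l k := by
  induction l using WellFoundedLT.induction with
  | ind l ih =>
    intro hkl hs hl H hw
    have hl0 : ℵ₀ ≤ l := hk.trans hkl.le
    have hP : ∃ G, Bd (succ l).ord G ∧ ∀ Y, Wit l k G Y →
        ∃ b < l.ord.cof.ord, ∀ y ∈ Y, y < l.ord.cof.ord → y < b := by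
      rcases le_or_gt l.ord.cof k with hck | hck
      · obtain ⟨r, hr, -, hrl⟩ := H l hkl le_rfl hs hl hck
        obtain ⟨X, D, F, hX, hX', hD, hF, hN⟩ := hrl.noThin hl0 hr
        obtain ⟨c, hc, hc'⟩ := hN.exists_cof hs hX hD hF
        obtain ⟨G0, hG0, h0⟩ :=
          hN.push hl0 (ord_le_ord.2 (Ordinal.cof_ord_le l)) hX hX' hD hF hc hc'
        exact ⟨G0, hG0, h0 k hk hkl⟩
      · refine ⟨fun _ x _ => x, fun _ x hx _ _ => hx, fun Y hY => ?_⟩
        have hle : l.ord.cof.ord ≤ l.ord := ord_le_ord.2 (Ordinal.cof_ord_le l)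
        have hS : Sz (Y ∩ Iio l.ord.cof.ord) k :=
          hY.2.2.2.mono (fun y hy => ⟨hy.1, lt_of_lt_of_le hy.2 hle⟩)
        obtain ⟨b, hb, hb'⟩ := hS.exists_bound (o := l.ord.cof.ord)
          (by rw [Ordinal.cof_ord_cof]; exact hck) (fun a ha => ha.2)
        exact ⟨b, hb, fun y hy hy' => hb' y ⟨hy, hy'⟩⟩
    obtain ⟨G0, hG0, h0⟩ := hP
    obtain ⟨G1, hG1, h1⟩ := reflect hs hl hk hkl (fun t ht hkt hts htl =>
      ih t ht hkt hts htl (fun s h1 h2 => H s h1 (h2.trans ht.le)))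
    obtain ⟨Y, hY1, hY2, hY3, hY4⟩ := hw
      (fun m => if m % 2 = 0 then G0 (m / 2) else G1 (m / 2)) (by
        intro m x hx y hy
        by_cases hm : m % 2 = 0
        · simp only [hm, if_true]
          exact hG0 _ x hx y hy
        · simp only [hm, if_false]
          exact hG1 _ x hx y hy)
    have w0 : Wit l k G0 Y := by
      refine ⟨hY1, fun m x hx y hy => ?_, hY3, hY4⟩
      have := hY2 (2 * m) x hx y hy
      have e1 : 2 * m % 2 = 0 := by omega
      have e2 : 2 * m / 2 = m := by omega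
      simpa only [e1, e2, if_true] using this
    have w1 : Wit l k G1 Y := by
      refine ⟨hY1, fun m x hx y hy => ?_, hY3, hY4⟩
      have := hY2 (2 * m + 1) x hx y hy
      have e1 : ¬ (2 * m + 1) % 2 = 0 := by omega
      have e2 : (2 * m + 1) / 2 = m := by omega
      simpa only [e1, e2, if_false] using this
    exact h1 Y w1 (h0 Y w0)

theorem exists_blocked (l k : Cardinal.{0}) (hk : ℵ₀ ≤ k) (hkl : k < l) (hs : l.IsSingular)
    (hl : l.IsStrongLimit) (h : CC l k) :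
    ∃ t : Cardinal.{0}, k < t ∧ t ≤ l ∧ t.IsSingular ∧ t.IsStrongLimit ∧ t.ord.cof ≤ k ∧
      ∀ r : Cardinal.{0}, r.IsRegular → t < r → ¬ CC r t := by
  by_contra hc
  push Not at hc
  exact main2_not_WC k hk l hkl hs hl hc (main2_wc h (hk.trans hkl.le))

end Pool.Agent.MP_ef13ad_lc
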