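import Pool.Agent.Lib.MP_ef13ad_lc.R.Defs

open Cardinal Ordinal Set Order

namespace Pool.Agent.MP_ef13ad_lc

theorem Seqs_gen {l : Cardinal.{0}} {n : Ordinal.{0}} (th : Ordinal.{0} → Ordinal.{0})
    (r : Ordinal.{0} → Cardinal.{0}) (hr : ∀ i < n, (r i).IsRegular ∧ (th i).card < r i)
    (hcof : ∀ g < l.ord, AE n (fun i => g < th i)) :
    ∃ F : Ordinal.{0} → Ordinal.{0} → Ordinal.{0},
      (∀ b < (succ l).ord, ∀ i < n, F b i < (r i).ord) ∧ Inc n F (succ l).ord := by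
  have h0 : ∀ a < (succ l).ord, ∃ e : Ordinal.{0} → Ordinal.{0},
      InjOn e (Iio a) ∧ ∀ b ∈ Iio a, e b < l.ord := fun a ha =>
    (Sz_Iio (lt_succ_iff.1 (Cardinal.lt_ord.1 ha))).exists_injOn
  choose! e he1 he2 using h0
  let B : Ordinal.{0} → Ordinal.{0} → Set Ordinal.{0} := fun a i => {b | b < a ∧ e a b < th i}
  have hB : ∀ a < (succ l).ord, ∀ i, Sz (B a i) (th i).card := fun a ha i =>
    Sz_of_injOn (Sz_Iio le_rfl) ((he1 a ha).mono fun b hb => hb.1) fun b hb => hb.2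
  obtain ⟨F, hF⟩ := exists_rec (β := Ordinal.{0} → Ordinal.{0})
    (fun j x b => ∀ i, b i = sSup ((fun y => x y i + 1) '' B j i))
    (fun j x y b hxy h i => by
      rw [h i]
      congr 1
      exact image_congr fun z hz => by rw [hxy z hz.1])
    (fun j x => ⟨fun i => sSup ((fun y => x y i + 1) '' B j i), fun _ => rfl⟩)
  have hlt : ∀ a < (succ l).ord, ∀ i, ∀ b ∈ B a i, F b i < F a i := by
    intro a ha i b hb
    rw [hF a i]
    exact (lt_add_one _).trans_le (le_csSup ((hB a ha i).image _).bddAbove ⟨b, hb, rfl⟩)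
  refine ⟨F, fun a ha i hi => ?_, fun b a hba ha => ?_⟩
  · obtain ⟨h1, h2⟩ := hr i hi
    induction a using WellFoundedLT.induction with
    | ind a ih =>
      rw [hF a i]
      refine ((hB a ha i).image _).sSup_lt (by rw [h1.cof_ord]; exact h2) ?_
      rintro _ ⟨b, hb, rfl⟩
      exact (isSuccLimit_ord h1.aleph0_le).add_one_lt (ih b hb.1 (hb.1.trans ha))
  · exact (hcof _ (he2 a ha b hba)).mono fun i _ h => hlt a ha i b ⟨hba, h⟩

theorem exists_seq_reg {l : Cardinal.{0}} (hl : l.IsRegular) :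
    ∃ F : Ordinal.{0} → Ordinal.{0} → Ordinal.{0},
      (∀ b < (succ l).ord, ∀ i < l.ord, F b i < l.ord) ∧ Inc l.ord F (succ l).ord :=
  Seqs_gen (fun i => i) (fun _ => l) (fun _ hi => ⟨hl, Cardinal.lt_ord.1 hi⟩) fun g hg =>
    ⟨g + 1, (isSuccLimit_ord hl.aleph0_le).add_one_lt hg,
      fun _ h _ => (lt_add_one g).trans_le h⟩

theorem exists_seq_prod {l : Cardinal.{0}} {n : Ordinal.{0}} (m : Ordinal.{0} → Cardinal.{0})
    (hm : ∀ i < n, ℵ₀ ≤ m i) (hcof : ∀ g < l.ord, AE n (fun i => g < (m i).ord)) :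
    ∃ F : Ordinal.{0} → Ordinal.{0} → Ordinal.{0},
      (∀ b < (succ l).ord, ∀ i < n, F b i < (succ (m i)).ord) ∧ Inc n F (succ l).ord :=
  Seqs_gen (fun i => (m i).ord) (fun i => succ (m i))
    (fun i hi => ⟨isRegular_succ (hm i hi), by rw [card_ord]; exact lt_succ _⟩) hcof

end Pool.Agent.MP_ef13ad_lc
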